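import Pool.Agent.Helper58.P4.Pts

/-!
# Quadratic characters of the absolute Galois group and modules of order 3
-/

open WeierstrassCurve
open scoped Classical

namespace Pool.Agent.Helper58.P4

/-- Isomorphism of modules over a group. -/
def Iso {G : Type*} [Group G] {M N : Type*} [AddCommGroup M] [AddCommGroup N]
    (ρ : G →* AddMonoid.End M) (σ : G →* AddMonoid.End N) : Prop :=
  ∃ e : M ≃+ N, ∀ g m, e (ρ g m) = σ g (e m)

/-- The group of order 3 on which `G` acts by the character `χ : G → {1, -1}`. -/
def chRep {G : Type*} [Group G] (χ : G →* ℤˣ) : G →* AddMonoid.End (ZMod 3) :=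
  (DistribMulAction.toAddMonoidEnd ℤˣ (ZMod 3)).comp χ

variable {K : Type*} [Field K]

/-- The 3-torsion subgroup `W[3]` of `W(Kb)`. -/
noncomputable def tor3 (W : WeierstrassCurve K) :
    AddSubgroup (Affine.baseChange W (AlgebraicClosure K)).Point :=
  (nsmulAddMonoidHom 3).ker

variable [CharZero K]

/-- A square root of `d` in the algebraic closure. -/
noncomputable def sqr (d : K) : AlgebraicClosure K :=
  Classical.choose (IsAlgClosed.exists_pow_nat_eq (algebraMap K (AlgebraicClosure K) d) two_pos)

/-- The quadratic (or trivial) character of the absolute Galois group belonging to `K(√d)`. -/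
noncomputable def qch (d : K) : (AlgebraicClosure K ≃ₐ[K] AlgebraicClosure K) →* ℤˣ where
  toFun g := if g (sqr d) = sqr d then 1 else -1
  map_one' := by simp
  map_mul' g h := by
    have hc (g : AlgebraicClosure K ≃ₐ[K] AlgebraicClosure K) :
        g (sqr d) = sqr d ∨ g (sqr d) = -sqr d := by
      refine sq_eq_sq_iff_eq_or_eq_neg.1 ?_
      rw [← map_pow, sqr, Classical.choose_spec (IsAlgClosed.exists_pow_nat_eq
        (algebraMap K (AlgebraicClosure K) d) two_pos), AlgEquiv.commutes]
    by_cases hz : sqr d = 0
    · simp [hz]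
    have hne : -sqr d ≠ sqr d := fun h0 => hz (by
      have : (2 : AlgebraicClosure K) * sqr d = 0 := by linear_combination -h0
      exact (mul_eq_zero.1 this).resolve_left two_ne_zero)
    rw [AlgEquiv.mul_apply]
    rcases hc g with hg | hg <;> rcases hc h with hh | hh <;> simp [hh, hg, hne]

/-- The cyclotomic character mod 3: the character belonging to `K(√-3)`. -/
noncomputable def om (K : Type*) [Field K] [CharZero K] :
    (AlgebraicClosure K ≃ₐ[K] AlgebraicClosure K) →* ℤˣ := qch (-3 : K)

/-- `W[3]` has a submodule isomorphic to `F_3(χ)` or to `F_3(χω)`. -/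
def Has (χ : (AlgebraicClosure K ≃ₐ[K] AlgebraicClosure K) →* ℤˣ) (W : WeierstrassCurve K) : Prop :=
  ∃ (T : AddSubgroup (Affine.baseChange W (AlgebraicClosure K)).Point) (hs : Stab W T),
    T ≤ tor3 W ∧ (Iso (lineRep W T hs) (chRep χ) ∨ Iso (lineRep W T hs) (chRep (χ * om K)))

end Pool.Agent.Helper58.P4
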