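import Pool.Agent.Helper58.P4.Sel
import Pool.Agent.Helper58.P4.Ch

/-!
# Pairs of isogenous curves and the cube roots of their discriminants: the statement
-/

open WeierstrassCurve
open scoped Classical

namespace Pool.Agent.Helper58.P4

/-- For every cube root `θ` of the discriminant of `W`, the fine Selmer group of `T` over the
cyclotomic `ℤ_3`-extension of `K(θ)` is finite. -/
def DiscFin {K : Type*} [Field K] (W : WeierstrassCurve K)
    (T : AddSubgroup (Affine.baseChange W (AlgebraicClosure K)).Point) (hs : Stab W T) : Prop :=
  ∀ θ : AlgebraicClosure K, θ ^ 3 = algebraMap K (AlgebraicClosure K) W.Δ →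
    FinSel (lineRep W T hs) ((IntermediateField.adjoin K {θ}).fixingSubgroup ⊓ Gcyc K 3)

end Pool.Agent.Helper58.P4
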