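import Pool.Agent.Helper58.P4.Sel

/-!
# Isogeny invariance when the two characters are conjugate: the statement
-/

open WeierstrassCurve
open scoped Classical

namespace Pool.Agent.Helper58.P4

variable {K : Type*} [Field K]

/-- The `p`-torsion subgroup `W[p]` of `W(Kb)`. -/
noncomputable def torp (p : ℕ) (W : WeierstrassCurve K) :
    AddSubgroup (Affine.baseChange W (AlgebraicClosure K)).Point :=
  (nsmulAddMonoidHom p).ker

/-- There are isogenies over `K` in both directions. -/
def IsogBoth (W W' : WeierstrassCurve K) : Prop := Isogenous W W' ∧ Isogenous W' W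

/-- There is a surjective homomorphism `f : B → T` with kernel `T` such that `f(h(P)) = g(f(P))`
for all `g` and `h` in `G` with `r g h`. -/
def QuoConj {G A : Type*} [Group G] [AddCommGroup A] (ρ : G →* AddMonoid.End A)
    (B T : AddSubgroup A) (r : G → G → Prop) : Prop :=
  ∃ f : B →+ T, Function.Surjective f ∧ (∀ P, f P = 0 ↔ (P : A) ∈ T) ∧
    ∀ g h : G, r g h → ∀ P Q : B, (Q : A) = ρ h P → (f Q : A) = ρ g (f P)

/-- Let `L` be a field between `K` and `Kb` and `σ` an automorphism of `Kb` with `σ(L) = L`.
The quotient `W[p] / T` is isomorphic over `Gal(Kb/L)` to the conjugate `T^σ`: there is a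
surjective homomorphism `f : W[p] → T` with kernel `T` such that `f(h(P)) = g(f(P))` for all `g` in
`Gal(Kb/L)` and `h = σ g σ⁻¹`. -/
def ConjOver (p : ℕ) (W : WeierstrassCurve K)
    (T : AddSubgroup (Affine.baseChange W (AlgebraicClosure K)).Point)
    (L : IntermediateField K (AlgebraicClosure K))
    (σ : AlgebraicClosure K ≃+* AlgebraicClosure K) : Prop :=
  QuoConj (ptsRep W) (torp p W) T
    (fun g h => g ∈ L.fixingSubgroup ∧ ∀ x, σ (g x) = h (σ x))

/-- There are a finite Galois extension `L` of `K` of `p`-power degree and an automorphism `σ` of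
`Kb` with `σ(L) = L` such that `W[p] / T` is isomorphic over `Gal(Kb/L)` to `T^σ`. -/
def Conj (p : ℕ) (W : WeierstrassCurve K)
    (T : AddSubgroup (Affine.baseChange W (AlgebraicClosure K)).Point) : Prop :=
  ∃ (L : IntermediateField K (AlgebraicClosure K)) (σ : AlgebraicClosure K ≃+* AlgebraicClosure K),
    FiniteDimensional K L ∧ IsGalois K L ∧ (∃ k : ℕ, Module.finrank K L = p ^ k) ∧
      (∀ x, σ x ∈ L ↔ x ∈ L) ∧ ConjOver p W T L σ

end Pool.Agent.Helper58.P4
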