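import Pool.Agent.Helper58.P4.Sel
import Pool.Agent.Helper58.P4.Ch

/-!
# Isogeny invariance of Conjecture A of Coates and Sujatha for `p = 3`, for one character: the
statements
-/

open scoped Classical

universe u

namespace Pool.Agent.Helper58.P4

/-- The module `M` is an extension of `F_3(χ')` by `F_3(χ)`: there is an exact sequence
`0 → F_3(χ) → M → F_3(χ') → 0` of modules over `G`. -/
def IsExt {G M : Type*} [Group G] [AddCommGroup M] (ρ : G →* AddMonoid.End M) (χ χ' : G →* ℤˣ) :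
    Prop :=
  ∃ (i : ZMod 3 →+ M) (f : M →+ ZMod 3), Function.Injective i ∧ Function.Surjective f ∧
    (∀ x, f x = 0 ↔ ∃ y, i y = x) ∧ (∀ g y, i (chRep χ g y) = ρ g (i y)) ∧
    ∀ g x, f (ρ g x) = chRep χ' g (f x)

/-- The curve `y² = x³ + k`. -/
def mordell {K : Type u} [Field K] (k : K) : WeierstrassCurve K where
  a₁ := 0
  a₂ := 0
  a₃ := 0
  a₄ := 0
  a₆ := k

variable (K : Type u) [Field K]

/-- Isogeny invariance of Conjecture A (Q1 for `p = 3` over `K`). -/
def IsogCS : Prop :=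
  ∀ W W' : WeierstrassCurve K, W.Δ ≠ 0 → W'.Δ ≠ 0 → Isogenous W W' →
    (ConjCS 3 W ↔ ConjCS 3 W')

variable [CharZero K] (χ : (AlgebraicClosure K ≃ₐ[K] AlgebraicClosure K) →* ℤˣ)

/-- Isogeny invariance for the curves `W` such that `W[3]` contains `F_3(χ)` or `F_3(χω)`. -/
def IsogCSAt : Prop :=
  ∀ W W' : WeierstrassCurve K, W.Δ ≠ 0 → W'.Δ ≠ 0 → Has χ W → Has χ W' → Isogenous W W' →
    (ConjCS 3 W ↔ ConjCS 3 W')

/-- For every `k` in `d K^{×2}`, Conjecture A at 3 holds for the curve `y² = x³ + k` if and only if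
it holds for the isogenous curve `y² = x³ - 27 k`. -/
def MordAt (K : Type u) [Field K] (d : K) : Prop :=
  ∀ u : K, u ≠ 0 →
    (ConjCS 3 (mordell (d * u ^ 2)) ↔ ConjCS 3 (mordell (-27 * (d * u ^ 2))))

/-- Conjecture A holds for all or for none of the curves `W` such that `W[3]` contains `F_3(χ)`
or `F_3(χω)`. -/
def ConstCSAt : Prop :=
  ∀ W W' : WeierstrassCurve K, W.Δ ≠ 0 → W'.Δ ≠ 0 → Has χ W → Has χ W' →
    (ConjCS 3 W ↔ ConjCS 3 W')

/-- For the curves `W` such that `W[3]` contains `F_3(χ)` or `F_3(χω)`: Conjecture A holds for `W`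
if and only if the fine Selmer groups of `F_3(χ)` and `F_3(χω)` over the cyclotomic
`ℤ_3`-extension of `K` are finite. -/
def SplitCSAt : Prop :=
  ∀ W : WeierstrassCurve K, W.Δ ≠ 0 → Has χ W →
    (ConjCS 3 W ↔ FinSel (chRep χ) (Gcyc K 3) ∧ FinSel (chRep (χ * om K)) (Gcyc K 3))

/-- For every continuous module `M` killed by 3 which is an extension of `F_3(χ)` and `F_3(χω)`, in
either order: the fine Selmer group of `M` over the cyclotomic `ℤ_3`-extension of `K` is finite if
and only if those of `F_3(χ)` and `F_3(χω)` are. -/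
def ExtSel : Prop :=
  ∀ (M : Type u) [AddCommGroup M]
    (ρ : (AlgebraicClosure K ≃ₐ[K] AlgebraicClosure K) →* AddMonoid.End M),
    (∀ x : M, 3 • x = 0) → (∀ x : M, IsOpen {g | ρ g x = x}) →
    (IsExt ρ χ (χ * om K) ∨ IsExt ρ (χ * om K) χ) →
    (FinSel ρ (Gcyc K 3) ↔ FinSel (chRep χ) (Gcyc K 3) ∧ FinSel (chRep (χ * om K)) (Gcyc K 3))

/-- For every pure cubic extension `B = K(θ)` of `K` (`θ³ = δ`, where `δ` is in `K` and not a cube
in `K`): the fine Selmer group of `F_3(χ)` over the cyclotomic `ℤ_3`-extension of `B` is finite if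
and only if that of `F_3(χω)` is. -/
def CubicRefl : Prop :=
  ∀ (θ : AlgebraicClosure K) (δ : K), θ ^ 3 = algebraMap K (AlgebraicClosure K) δ →
    (∀ c : K, c ^ 3 ≠ δ) →
    (FinSel (chRep χ) ((IntermediateField.adjoin K {θ}).fixingSubgroup ⊓ Gcyc K 3) ↔
      FinSel (chRep (χ * om K)) ((IntermediateField.adjoin K {θ}).fixingSubgroup ⊓ Gcyc K 3))

end Pool.Agent.Helper58.P4
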