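import Mathlib

/-!
# Elliptic curves over a field `K`: points over an algebraic closure, Galois action, isogenies

The points of `W` over the algebraic closure are `(Affine.baseChange W (AlgebraicClosure K)).Point`,
the absolute Galois group is `AlgebraicClosure K ≃ₐ[K] AlgebraicClosure K`. A module over a group `G`
is an abelian group `M` together with a homomorphism from `G` to `AddMonoid.End M`.
-/

open WeierstrassCurve
open scoped Classical

namespace Pool.Agent.Helper58.P4

/-- The Galois group of `Kb / K_cyc`, where `Kb` is the algebraic closure and `K_cyc` the cyclotomic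
`ℤ_p`-extension of `K` (`p` odd): the elements whose image under the cyclotomic character is a
`(p-1)`-st root of unity. -/
noncomputable def Gcyc (K : Type*) [Field K] (p : ℕ) [Fact p.Prime] :
    Subgroup (AlgebraicClosure K ≃ₐ[K] AlgebraicClosure K) :=
  ((powMonoidHom (p - 1)).comp ((cyclotomicCharacter (AlgebraicClosure K) p).comp
    (MulSemiringAction.toRingAut (AlgebraicClosure K ≃ₐ[K] AlgebraicClosure K)
      (AlgebraicClosure K)))).ker

/-- The module structure on a stable subgroup. -/
def subRep {G : Type*} [Group G] {A : Type*} [AddCommGroup A] (ρ : G →* AddMonoid.End A)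
    (H : AddSubgroup A) (hH : ∀ g, ∀ x ∈ H, ρ g x ∈ H) : G →* AddMonoid.End H where
  toFun g := AddMonoidHom.mk' (fun x => (⟨ρ g x, hH g x x.2⟩ : H))
    (fun x y => Subtype.ext (map_add (ρ g) (x : A) y))
  map_one' := AddMonoidHom.ext fun x => Subtype.ext (by
    change ρ 1 (x : A) = x
    rw [map_one]
    rfl)
  map_mul' g h := AddMonoidHom.ext fun x => Subtype.ext (by
    change ρ (g * h) (x : A) = ρ g (ρ h x)
    rw [map_mul]
    rfl)

variable {K : Type*} [Field K]

/-- The Galois action on the points of `W` over the algebraic closure. -/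
noncomputable def ptsRep (W : WeierstrassCurve K) :
    (AlgebraicClosure K ≃ₐ[K] AlgebraicClosure K) →*
      AddMonoid.End (Affine.baseChange W (AlgebraicClosure K)).Point where
  toFun g := Affine.Point.map (W' := W) (g : AlgebraicClosure K →ₐ[K] AlgebraicClosure K)
  map_one' := AddMonoidHom.ext fun P => by cases P <;> rfl
  map_mul' g h := AddMonoidHom.ext fun P => by cases P <;> rfl

/-- A subgroup of `W(Kb)` is Galois stable. -/
def Stab (W : WeierstrassCurve K)
    (T : AddSubgroup (Affine.baseChange W (AlgebraicClosure K)).Point) : Prop :=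
  ∀ g, ∀ P ∈ T, ptsRep W g P ∈ T

/-- The Galois module `T` for a stable subgroup `T` of `W(Kb)`. -/
noncomputable def lineRep (W : WeierstrassCurve K)
    (T : AddSubgroup (Affine.baseChange W (AlgebraicClosure K)).Point) (hs : Stab W T) :
    (AlgebraicClosure K ≃ₐ[K] AlgebraicClosure K) →* AddMonoid.End T :=
  subRep (ptsRep W) T hs

/-- `W` and `W'` are isogenous over `K`: there is a surjective homomorphism `φ : W(Kb) → W'(Kb)` with
finite kernel that commutes with the Galois action and is given, outside a finite set, by rational
functions of the coordinates with coefficients in `K`. -/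
def Isogenous (W W' : WeierstrassCurve K) : Prop :=
  ∃ φ : (Affine.baseChange W (AlgebraicClosure K)).Point →+
      (Affine.baseChange W' (AlgebraicClosure K)).Point,
    Function.Surjective φ ∧ Finite φ.ker ∧ (∀ g P, φ (ptsRep W g P) = ptsRep W' g (φ P)) ∧
    ∃ (A B C D : MvPolynomial (Fin 2) K)
      (s : Set (Affine.baseChange W (AlgebraicClosure K)).Point), s.Finite ∧
      ∀ (x y : AlgebraicClosure K)
        (h : (Affine.baseChange W (AlgebraicClosure K)).Nonsingular x y),
        Affine.Point.some x y h ∉ s →
        MvPolynomial.aeval ![x, y] B ≠ 0 ∧ MvPolynomial.aeval ![x, y] D ≠ 0 ∧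
        ∃ h', φ (Affine.Point.some x y h) = Affine.Point.some
          (MvPolynomial.aeval ![x, y] A / MvPolynomial.aeval ![x, y] B)
          (MvPolynomial.aeval ![x, y] C / MvPolynomial.aeval ![x, y] D) h'

end Pool.Agent.Helper58.P4
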