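import Pool.Agent.Helper58.P4.Pts

/-!
# Fine Selmer groups and Conjecture A of Coates and Sujatha
-/

open scoped NumberField Pointwise Classical
open WeierstrassCurve

namespace Pool.Agent.Helper58.P4

/-- The group of the coboundaries `g ↦ ρ g m - m` of a group `G` with values in `M`. -/
def selB {G M : Type*} [Group G] [AddCommGroup M] (ρ : G →* AddMonoid.End M) :
    AddSubgroup (G → M) where
  carrier := {c | ∃ m : M, ∀ g : G, c g = ρ g m - m}
  zero_mem' := ⟨0, fun g => by simp⟩
  add_mem' := fun ⟨m, hm⟩ ⟨n, hn⟩ =>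
    ⟨m + n, fun g => by simp only [Pi.add_apply, hm g, hn g, map_add]; abel⟩
  neg_mem' := fun ⟨m, hm⟩ => ⟨-m, fun g => by simp only [Pi.neg_apply, hm g, map_neg]; abel⟩

section

variable {G X M : Type*} [Group G] [TopologicalSpace G] [MulAction G X] [AddCommGroup M]

/-- `c` is a continuous cocycle of `G` with values in `M` whose restriction to the stabilizer of `P`
is a coboundary, for every `P` in the set `S`. -/
def LocTriv (ρ : G →* AddMonoid.End M) (S : Set X) (c : G → M) : Prop :=
  IsLocallyConstant c ∧ (∀ g h : G, c (g * h) = c g + ρ g (c h)) ∧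
    ∀ P ∈ S, ∃ m : M, ∀ g : G, g • P = P → c g = ρ g m - m

variable {ρ : G →* AddMonoid.End M} {S : Set X} {c d : G → M}

theorem LocTriv.zero : LocTriv ρ S 0 :=
  ⟨IsLocallyConstant.const 0, fun g h => by simp, fun P _ => ⟨0, fun g _ => by simp⟩⟩

theorem LocTriv.add (hc : LocTriv ρ S c) (hd : LocTriv ρ S d) : LocTriv ρ S (c + d) := by
  obtain ⟨hc1, hc2, hc3⟩ := hc
  obtain ⟨hd1, hd2, hd3⟩ := hd
  refine ⟨hc1.add hd1, fun g h => ?_, fun P hP => ?_⟩
  · simp only [Pi.add_apply, hc2 g h, hd2 g h, map_add]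
    abel
  · obtain ⟨m, hm⟩ := hc3 P hP
    obtain ⟨n, hn⟩ := hd3 P hP
    exact ⟨m + n, fun g hg => by simp only [Pi.add_apply, hm g hg, hn g hg, map_add]; abel⟩

theorem LocTriv.neg (hc : LocTriv ρ S c) : LocTriv ρ S (-c) := by
  obtain ⟨hc1, hc2, hc3⟩ := hc
  refine ⟨hc1.neg, fun g h => ?_, fun P hP => ?_⟩
  · simp only [Pi.neg_apply, hc2 g h, map_neg]
    abel
  · obtain ⟨m, hm⟩ := hc3 P hP
    exact ⟨-m, fun g hg => by simp only [Pi.neg_apply, hm g hg, map_neg]; abel⟩

variable (ρ S)

/-- The group of all `c` with `LocTriv ρ S c`. -/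
def selZ : AddSubgroup (G → M) where
  carrier := {c | LocTriv ρ S c}
  zero_mem' := LocTriv.zero
  add_mem' := LocTriv.add
  neg_mem' := LocTriv.neg

/-- The group of the classes in `H¹(G, M)` that are trivial on the stabilizers of all `P` in `S`. -/
def Sel : Type _ := selZ ρ S ⧸ (selB ρ).addSubgroupOf (selZ ρ S)

instance : AddCommGroup (Sel ρ S) := QuotientAddGroup.Quotient.addCommGroup _

end

section

variable {K : Type*} [Field K]

/-- The nonzero primes of the ring of integers of the algebraic closure. -/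
def primes (K : Type*) [Field K] : Set (Ideal (𝓞 (AlgebraicClosure K))) :=
  {P | P.IsPrime ∧ P ≠ ⊥}

/-- The fine Selmer group of `M` over the fixed field of the subgroup `H` of the absolute Galois
group of `K` is finite; its elements are the classes in `H¹(H, M)` that are trivial on all
decomposition groups. -/
def FinSel {M : Type*} [AddCommGroup M]
    (ρ : (AlgebraicClosure K ≃ₐ[K] AlgebraicClosure K) →* AddMonoid.End M)
    (H : Subgroup (AlgebraicClosure K ≃ₐ[K] AlgebraicClosure K)) : Prop :=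
  Finite (Sel (ρ.comp H.subtype) (primes K))

end


/-- `Hom(A, ℚ_p/ℤ_p)` is a finitely generated `ℤ_p`-module. -/
def CoFin (p : ℕ) [Fact p.Prime] (A : Type*) [AddCommGroup A] : Prop :=
  Module.Finite ℤ_[p] (A →+ ℚ_[p] ⧸ LinearMap.range (Algebra.linearMap ℤ_[p] ℚ_[p]))

/-- The subgroup of all elements of `p`-power order of an abelian group. -/
def torInf (p : ℕ) (A : Type*) [AddCommGroup A] : AddSubgroup A where
  carrier := {P | ∃ n : ℕ, p ^ n • P = 0}
  zero_mem' := ⟨0, by simp⟩
  add_mem' := by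
    rintro P Q ⟨n, hn⟩ ⟨m, hm⟩
    refine ⟨n + m, ?_⟩
    have h1 : p ^ (n + m) • P = 0 := by
      rw [pow_add, mul_comm, mul_nsmul', hn]
      exact nsmul_zero _
    have h2 : p ^ (n + m) • Q = 0 := by
      rw [pow_add, mul_nsmul', hm]
      exact nsmul_zero _
    rw [nsmul_add, h1, h2, add_zero]
  neg_mem' := by
    rintro P ⟨n, hn⟩
    exact ⟨n, by rw [smul_neg, hn, neg_zero]⟩

theorem stab_torInf (p : ℕ) {G A : Type*} [Group G] [AddCommGroup A] (ρ : G →* AddMonoid.End A) :
    ∀ g, ∀ x ∈ torInf p A, ρ g x ∈ torInf p A := fun g P hP => by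
  obtain ⟨n, hn⟩ := hP
  exact ⟨n, by rw [← map_nsmul, hn, map_zero]⟩

/-- Let `M[p^∞]` be the module of all elements of `p`-power order of the `G`-module `M`. The group of
the homomorphisms from `Sel M[p^∞] S` to `ℚ_p/ℤ_p` is a finitely generated `ℤ_p`-module. -/
def CoTor (p : ℕ) [Fact p.Prime] {G X M : Type*} [Group G] [TopologicalSpace G] [MulAction G X]
    [AddCommGroup M] (ρ : G →* AddMonoid.End M) (S : Set X) : Prop :=
  CoFin p (Sel (subRep ρ (torInf p M) (stab_torInf p ρ)) S)

/-- Conjecture A of Coates and Sujatha for `W` and `p`: the Pontryagin dual of the fine Selmer group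
of `W[p^∞]` over the cyclotomic `ℤ_p`-extension of `K` is a finitely generated `ℤ_p`-module. -/
def ConjCS {K : Type*} [Field K] (p : ℕ) [Fact p.Prime] (W : WeierstrassCurve K) : Prop :=
  CoTor p ((ptsRep W).comp (Gcyc K p).subtype) (primes K)

end Pool.Agent.Helper58.P4
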