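import Pool.Agent.Helper58.P4.Sel
import Pool.Agent.Helper58.P3.Cpt

set_option autoImplicit false

/-!
# The definitions of this folder and those of the library agree
-/

open WeierstrassCurve
open scoped Classical NumberField Pointwise

universe u

namespace Pool.Agent.Helper58.P4

theorem isog_eq {K : Type*} [Field K] (W W' : WeierstrassCurve K) :
    Isogenous W W' = IQ.Isogenous W W' :=
  propext ⟨fun ⟨φ, h1, h2, h3, h4⟩ => ⟨φ, h1, h2, h3, h4⟩,
    fun ⟨φ, h1, h2, h3, h4⟩ => ⟨φ, h1, h2, h3, h4⟩⟩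

theorem gcyc_eq (K : Type*) [Field K] (p : ℕ) [Fact p.Prime] : Gcyc K p = IQ.Gcyc K p := rfl

section

variable {K : Type*} [Field K] {M : Type*} [AddCommGroup M]
  (ρ : (AlgebraicClosure K ≃ₐ[K] AlgebraicClosure K) →* AddMonoid.End M)
  (H : Subgroup (AlgebraicClosure K ≃ₐ[K] AlgebraicClosure K))

theorem selZ_eq : selZ (ρ.comp H.subtype) (primes K) = CS.selZ ρ H := by
  ext c
  exact ⟨fun ⟨h1, h2, h3⟩ => ⟨h1, h2, fun P hP h0 => h3 P ⟨hP, h0⟩⟩,
    fun ⟨h1, h2, h3⟩ => ⟨h1, h2, fun P hP => h3 P hP.1 hP.2⟩⟩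

theorem selB_eq : selB (ρ.comp H.subtype) = CS.selB ρ H := rfl

theorem fin_congr {A : Type*} [AddCommGroup A] {Z Z' B B' : AddSubgroup A} (h : Z = Z')
    (hB : B = B') : Finite (Z ⧸ B.addSubgroupOf Z) = Finite (Z' ⧸ B'.addSubgroupOf Z') := by
  subst h hB
  rfl

theorem cofin_congr (p : ℕ) [Fact p.Prime] {A : Type*} [AddCommGroup A]
    {Z Z' B B' : AddSubgroup A} (h : Z = Z') (hB : B = B') :
    CoFin p (Z ⧸ B.addSubgroupOf Z) = CoFin p (Z' ⧸ B'.addSubgroupOf Z') := by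
  subst h hB
  rfl

theorem finSel_eq : FinSel ρ H = CS.FinSel ρ H :=
  fin_congr (selZ_eq ρ H) (selB_eq ρ H)

end

theorem conjCS_eq {K : Type*} [Field K] (p : ℕ) [Fact p.Prime] (W : WeierstrassCurve K) :
    ConjCS p W = CS.ConjCS p W :=
  cofin_congr p (selZ_eq (IQ.lineRep W (CS.torInf p (IQ.Pts W)) (CS.stab_torInf p W)) _)
    (selB_eq (IQ.lineRep W (CS.torInf p (IQ.Pts W)) (CS.stab_torInf p W)) _)

end Pool.Agent.Helper58.P4
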