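import Pool.Agent.Helper58.P4.D
import Pool.Agent.Helper58.P4.TrSel
import Pool.Agent.Helper58.P3.BrgD

set_option autoImplicit false

/-!
# Isogenous pairs: the theorem in the words of this folder
-/

open WeierstrassCurve
open scoped Classical

universe u

namespace Pool.Agent.Helper58.P4

theorem discFin_eq {K : Type*} [Field K] (W : WeierstrassCurve K)
    (T : AddSubgroup (Affine.baseChange W (AlgebraicClosure K)).Point) (hs : Stab W T) :
    DiscFin W T hs = CS.DiscFin W T hs := by
  simp only [DiscFin, CS.DiscFin, CS.AtRoot, finSel_eq, gcyc_eq]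
  rfl

theorem pairs_main (K : Type u) [Field K] [NumberField K] (W W' : WeierstrassCurve K)
    (hW : W.Δ ≠ 0) (hW' : W'.Δ ≠ 0) (hI : Isogenous W W') :
    ((∀ T : AddSubgroup (Affine.baseChange W (AlgebraicClosure K)).Point,
        Stab W T → Nat.card T ≠ 3) → (ConjCS 3 W ↔ ConjCS 3 W')) ∧
    ∀ (T : AddSubgroup (Affine.baseChange W (AlgebraicClosure K)).Point) (hs : Stab W T),
      Nat.card T = 3 →
      (∃ T' : AddSubgroup (Affine.baseChange W' (AlgebraicClosure K)).Point,
        Stab W' T' ∧ Nat.card T' = 3) ∧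
      ∀ (T' : AddSubgroup (Affine.baseChange W' (AlgebraicClosure K)).Point) (hs' : Stab W' T'),
        Nat.card T' = 3 →
        (∀ χ : (AlgebraicClosure K ≃ₐ[K] AlgebraicClosure K) →* ℤˣ,
          Iso (lineRep W T hs) (chRep χ) →
          Iso (lineRep W' T' hs') (chRep χ) ∨ Iso (lineRep W' T' hs') (chRep (χ * om K))) ∧
        (ConjCS 3 W ↔ DiscFin W T hs) ∧ (ConjCS 3 W' ↔ DiscFin W' T' hs') ∧
        ((ConjCS 3 W ↔ ConjCS 3 W') ↔ (DiscFin W T hs ↔ DiscFin W' T' hs')) := by
  rw [isog_eq] at hI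
  simp only [conjCS_eq, discFin_eq]
  exact CS.pairs K W W' hW hW' hI

end Pool.Agent.Helper58.P4
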