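import Pool.Agent.Helper58.P4.K
import Pool.Agent.Helper58.P4.TrSel
import Pool.Agent.Helper58.P3.BrgK

set_option autoImplicit false

/-!
# Conjugate kernels: the theorem in the words of this folder
-/

open WeierstrassCurve
open scoped Classical

universe u

namespace Pool.Agent.Helper58.P4

theorem stab_iff {K : Type*} [Field K] (W : WeierstrassCurve K)
    (T : AddSubgroup (Affine.baseChange W (AlgebraicClosure K)).Point) :
    Stab W T ↔ IQ.Stab W T := Iff.rfl

theorem conj_iff {K : Type*} [Field K] (p : ℕ) (W : WeierstrassCurve K)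
    (T : AddSubgroup (Affine.baseChange W (AlgebraicClosure K)).Point) :
    Conj p W T ↔ CS.Conj p W T := Iff.rfl

theorem conj_main (K : Type u) [Field K] [NumberField K] (p : ℕ) [Fact p.Prime] (hp : p ≠ 2)
    (W : WeierstrassCurve K) (hW : W.Δ ≠ 0)
    (T : AddSubgroup (Affine.baseChange W (AlgebraicClosure K)).Point) (hs : Stab W T)
    (hT : T ≤ torp p W) (hc : Nat.card T = p) (h : Conj p W T)
    (W' : WeierstrassCurve K) (hW' : W'.Δ ≠ 0) (hI : IsogBoth W W') :
    ConjCS p W ↔ ConjCS p W' := by
  rw [conjCS_eq, conjCS_eq]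
  unfold IsogBoth at hI
  rw [isog_eq, isog_eq] at hI
  exact CS.conjKernels K p hp W hW T ((stab_iff W T).1 hs) hT hc ((conj_iff p W T).1 h) W' hW' hI

end Pool.Agent.Helper58.P4
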