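import Pool.Agent.Helper58.P4.M
import Pool.Agent.Helper58.P4.TrSel
import Pool.Agent.Helper58.P3.BrgM

set_option autoImplicit false

/-!
# The curves `y² = x³ + k`: the theorem in the words of this folder
-/

open WeierstrassCurve
open scoped Classical

universe u

namespace Pool.Agent.Helper58.P4

theorem qch_eq {K : Type*} [Field K] [CharZero K] (d : K) : qch d = IQ.qch d := rfl

theorem om_eq (K : Type*) [Field K] [CharZero K] : om K = IQ.om K := rfl

theorem chRep_eq {G : Type*} [Group G] (χ : G →* ℤˣ) : chRep χ = IQ.chRep χ := rfl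

theorem has_eq {K : Type*} [Field K] [CharZero K]
    (χ : (AlgebraicClosure K ≃ₐ[K] AlgebraicClosure K) →* ℤˣ) (W : WeierstrassCurve K) :
    Has χ W = IQ.Has χ W := rfl

theorem mordell_eq {K : Type u} [Field K] (k : K) : mordell k = CS.mordell k := rfl

theorem isExt_iff {G M : Type*} [Group G] [AddCommGroup M] (ρ : G →* AddMonoid.End M)
    (χ χ' : G →* ℤˣ) : IsExt ρ χ χ' ↔
      ∃ (N : AddSubgroup M) (hN : ∀ g, ∀ x ∈ N, ρ g x ∈ N),
        IQ.Iso (IQ.subRep ρ N hN) (IQ.chRep χ) ∧ IQ.Iso (IQ.quoRep ρ N hN) (IQ.chRep χ') := by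
  constructor
  · rintro ⟨i, f, hi, hf, hk, h1, h2⟩
    have hker : f.ker = i.range := by
      ext x
      rw [AddMonoidHom.mem_ker, hk x]
      exact Iff.rfl
    refine ⟨f.ker, fun g x hx => ?_, ?_, ?_⟩
    · rw [AddMonoidHom.mem_ker] at hx ⊢
      rw [h2, hx, map_zero]
    · let e : ZMod 3 ≃+ f.ker := (AddMonoidHom.ofInjective hi).trans
        (AddEquiv.addSubgroupCongr hker.symm)
      refine ⟨e.symm, fun g m => ?_⟩
      obtain ⟨y, rfl⟩ := e.surjective m
      rw [AddEquiv.symm_apply_apply]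
      apply e.injective
      rw [AddEquiv.apply_symm_apply]
      exact Subtype.ext (h1 g y).symm
    · refine ⟨QuotientAddGroup.quotientKerEquivOfSurjective f hf, fun g m => ?_⟩
      induction m using QuotientAddGroup.induction_on with
      | H x => exact h2 g x
  · rintro ⟨N, hN, ⟨e, he⟩, ⟨e', he'⟩⟩
    refine ⟨N.subtype.comp e.symm.toAddMonoidHom,
      e'.toAddMonoidHom.comp (QuotientAddGroup.mk' N), ?_, ?_, fun x => ?_, fun g y => ?_,
      fun g x => ?_⟩
    · exact fun a b h => e.symm.injective (Subtype.ext h)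
    · exact e'.surjective.comp (QuotientAddGroup.mk'_surjective N)
    · constructor
      · intro h
        have h0 : (QuotientAddGroup.mk x : M ⧸ N) = 0 := e'.injective (h.trans (map_zero e').symm)
        rw [QuotientAddGroup.eq_zero_iff] at h0
        exact ⟨e ⟨x, h0⟩, congrArg Subtype.val (e.symm_apply_apply ⟨x, h0⟩)⟩
      · rintro ⟨y, rfl⟩
        have h0 : (QuotientAddGroup.mk ((e.symm y : N) : M) : M ⧸ N) = 0 :=
          (QuotientAddGroup.eq_zero_iff _).2 (e.symm y).2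
        exact (congrArg e' h0).trans (map_zero e')
    · have h := he g (e.symm y)
      rw [AddEquiv.apply_symm_apply] at h
      exact congrArg Subtype.val ((e.symm_apply_eq.2 h.symm))
    · exact he' g (QuotientAddGroup.mk x)

theorem isogCS_eq (K : Type u) [Field K] : IsogCS K = CS.IsogCS K := by
  simp only [IsogCS, CS.IsogCS, isog_eq, conjCS_eq]

theorem isogCSAt_eq (K : Type u) [Field K] [CharZero K]
    (χ : (AlgebraicClosure K ≃ₐ[K] AlgebraicClosure K) →* ℤˣ) :
    IsogCSAt K χ = CS.IsogCSAt K χ := by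
  simp only [IsogCSAt, CS.IsogCSAt, isog_eq, conjCS_eq, has_eq]

theorem mordAt_eq (K : Type u) [Field K] (d : K) : MordAt K d = CS.MordAt K d := by
  simp only [MordAt, CS.MordAt, conjCS_eq, mordell_eq]

theorem constCSAt_eq (K : Type u) [Field K] [CharZero K]
    (χ : (AlgebraicClosure K ≃ₐ[K] AlgebraicClosure K) →* ℤˣ) :
    ConstCSAt K χ = CS.ConstCSAt K χ := by
  simp only [ConstCSAt, CS.ConstCSAt, conjCS_eq, has_eq]

theorem splitCSAt_eq (K : Type u) [Field K] [CharZero K]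
    (χ : (AlgebraicClosure K ≃ₐ[K] AlgebraicClosure K) →* ℤˣ) :
    SplitCSAt K χ = CS.SplitCSAt K χ := by
  simp only [SplitCSAt, CS.SplitCSAt, CS.A3, conjCS_eq, has_eq, finSel_eq, gcyc_eq, chRep_eq,
    om_eq]

theorem extSel_eq (K : Type u) [Field K] [CharZero K]
    (χ : (AlgebraicClosure K ≃ₐ[K] AlgebraicClosure K) →* ℤˣ) :
    ExtSel K χ = CS.ExtSel K χ := by
  apply propext
  simp only [ExtSel, CS.ExtSel, CS.A3, IQ.Cont, finSel_eq, gcyc_eq, chRep_eq, om_eq, isExt_iff]
  constructor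
  · rintro h M _ ρ N hN h3 hc (h1 | h1)
    · exact h M ρ h3 hc (Or.inl ⟨N, hN, h1⟩)
    · exact h M ρ h3 hc (Or.inr ⟨N, hN, h1⟩)
  · rintro h M _ ρ h3 hc (⟨N, hN, h1⟩ | ⟨N, hN, h1⟩)
    · exact h M ρ N hN h3 hc (Or.inl h1)
    · exact h M ρ N hN h3 hc (Or.inr h1)

theorem cubicRefl_eq (K : Type u) [Field K] [CharZero K]
    (χ : (AlgebraicClosure K ≃ₐ[K] AlgebraicClosure K) →* ℤˣ) :
    CubicRefl K χ = CS.CubicRefl K χ := by
  simp only [CubicRefl, CS.CubicRefl, CS.AtRoot, finSel_eq, gcyc_eq, chRep_eq, om_eq]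

theorem mordell_main (K : Type u) [Field K] [NumberField K] :
    (IsogCS K ↔
      ∀ k : K, k ≠ 0 → ConjCS 3 (mordell k) → ConjCS 3 (mordell (-27 * k))) ∧
    ∀ d : K, d ≠ 0 →
      List.TFAE [IsogCSAt K (qch d), MordAt K d, ConstCSAt K (qch d), SplitCSAt K (qch d),
        ExtSel K (qch d), CubicRefl K (qch d)] := by
  simp only [isogCS_eq, isogCSAt_eq, mordAt_eq, constCSAt_eq, splitCSAt_eq, extSel_eq,
    cubicRefl_eq, conjCS_eq, mordell_eq, qch_eq]
  exact ⟨CS.isogM, fun _ hd => CS.tfaeM hd⟩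

end Pool.Agent.Helper58.P4
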